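import Pool.Agent.H78.OX.Targets

/-! # WTX: the weight of the correction string -/

set_option autoImplicit false

namespace Pool.Agent.H50.OX

open Finset Pool.Agent.H6.NB Pool.Agent.H70.OQ Pool.Agent.H70.EH Pool.Agent.H78.XQ
  Pool.Agent.H78.OX

theorem avg_equiv {U U' : Type} [Fintype U] [Fintype U'] (e : U' ≃ U) (q : ℕ)
    (P : U → VV q → Bool) : avg q (fun u => P (e u)) = avg q P := by
  unfold avg
  rw [Fintype.card_congr e, Equiv.sum_comp e fun u => phi q (P u) ^ 2]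

theorem avg_nonneg {U : Type} [Fintype U] (q : ℕ) (P : U → VV q → Bool) : 0 ≤ avg q P :=
  div_nonneg (Finset.sum_nonneg fun _ _ => sq_nonneg _) (Nat.cast_nonneg _)

theorem avg_le_one (hPHB : T_PHB) {U : Type} [Fintype U] (q : ℕ) (P : U → VV q → Bool) :
    avg q P ≤ 1 := by
  unfold avg
  apply div_le_one_of_le₀ _ (Nat.cast_nonneg _)
  calc ∑ u, phi q (P u) ^ 2 ≤ ∑ _u : U, (1 : ℝ) := by
        refine Finset.sum_le_sum fun u _ => ?_
        rw [← sq_abs]
        exact pow_le_one₀ (abs_nonneg _) (hPHB q (P u))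
    _ = Fintype.card U := by simp

theorem kap_itg (hITG : T_ITG) (s : List Bool)
    (P : Fin (2 ^ (2 * s.length)) → VV (qs s) → Bool) :
    ∃ K : ℕ, K ≤ 2 ^ wlx s ∧ kap (qs s) (rnx s) P = K / 2 ^ wlx s := by
  obtain ⟨K, hK1, hK2⟩ := hITG s.length (qs s) (rnx s)
    (fun u => P ((eu (2 * s.length)).symm u))
  refine ⟨K, hK1, ?_⟩
  rw [show wlx s = rnx s * (2 * s.length + 3 * qs s) from rfl, ← hK2]
  unfold Pool.Agent.H78.XQ.kap
  rw [avg_equiv (eu (2 * s.length)).symm (qs s) P]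

theorem rnx_pos (s : List Bool) : 1 ≤ rnx s := by
  unfold rnx
  exact Nat.succ_le_of_lt (by positivity)

theorem rnx_le (s : List Bool) (h : 100 ≤ s.length) : 2 * rnx s ≤ 2 ^ (4 * s.length) := by
  unfold rnx qs
  generalize s.length = l at h
  have h1 : 10 * l + 100 + 3 ≤ 12 * l := by omega
  have h2 : l + 1 ≤ 2 * l := by omega
  have h3 : l ≤ 2 ^ l := Nat.lt_two_pow_self.le
  calc 2 * (2048 * (10 * l + 100 + 3) ^ 2 * (l + 1)) ≤ 2 * (2048 * (12 * l) ^ 2 * (2 * l)) := by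
        gcongr
    _ = 1179648 * l ^ 3 := by ring
    _ ≤ 2 ^ 21 * (2 ^ l) ^ 3 := by
        gcongr
        norm_num
    _ = 2 ^ (21 + 3 * l) := by rw [← pow_mul, ← pow_add]; ring_nf
    _ ≤ 2 ^ (4 * l) := Nat.pow_le_pow_right (by norm_num) (by omega)

theorem dvx_le (s : List Bool) (h : 100 ≤ s.length) : dvx s ≤ 1 / 2 := by
  unfold dvx
  rw [div_le_iff₀ (by positivity)]
  have := rnx_le s h
  have h2 : (2 * rnx s : ℝ) ≤ 2 ^ (4 * s.length) := by exact_mod_cast this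
  linarith

theorem wlx_pos (s : List Bool) : 1 ≤ wlx s := by
  unfold wlx qs
  have := rnx_pos s
  exact Nat.mul_pos this (by omega)

theorem exp_neg_le (m : ℕ) : Real.exp (-(m : ℝ)) ≤ (1 / 2) ^ m := by
  have h1 : Real.exp (-1) ≤ 1 / 2 := by
    have := Real.exp_neg_one_lt_d9
    linarith
  calc Real.exp (-(m : ℝ)) = Real.exp (-1) ^ m := by
        rw [← Real.exp_nat_mul]; ring_nf
    _ ≤ (1 / 2) ^ m := pow_le_pow_left₀ (Real.exp_pos _).le h1 m

theorem kap_small (hPHB : T_PHB) (s : List Bool)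
    (P : Fin (2 ^ (2 * s.length)) → VV (qs s) → Bool) (hg : eps2 (qs s) ^ 2 / 8 ≤ avg (qs s) P) :
    kap (qs s) (rnx s) P ≤ 1 / 2 ∧ kap (qs s) (rnx s) P ≤ dvx s := by
  have ha1 := avg_le_one hPHB (qs s) P
  have h1 : kap (qs s) (rnx s) P ≤ Real.exp (-((4 * (s.length + 1) : ℕ) : ℝ)) := by
    unfold Pool.Agent.H78.XQ.kap
    have h2 : 1 - avg (qs s) P ≤ Real.exp (-(eps2 (qs s) ^ 2 / 8)) := by
      have h3 := Real.add_one_le_exp (-(eps2 (qs s) ^ 2 / 8))
      linarith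
    calc (1 - avg (qs s) P) ^ rnx s ≤ Real.exp (-(eps2 (qs s) ^ 2 / 8)) ^ rnx s :=
          pow_le_pow_left₀ (by linarith) h2 _
      _ = Real.exp (-((4 * (s.length + 1) : ℕ) : ℝ)) := by
          rw [← Real.exp_nat_mul]
          congr 1
          unfold rnx eps2
          push_cast
          field_simp
          ring
  have h4 := h1.trans (exp_neg_le (4 * (s.length + 1)))
  constructor
  · refine h4.trans ?_
    calc (1 / 2 : ℝ) ^ (4 * (s.length + 1)) ≤ (1 / 2) ^ 1 :=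
          pow_le_pow_of_le_one (by norm_num) (by norm_num) (by omega)
      _ = 1 / 2 := by norm_num
  · refine h4.trans ?_
    unfold dvx
    have h5 : (1 : ℝ) ≤ rnx s := by exact_mod_cast rnx_pos s
    calc (1 / 2 : ℝ) ^ (4 * (s.length + 1)) ≤ (1 / 2) ^ (4 * s.length) :=
          pow_le_pow_of_le_one (by norm_num) (by norm_num) (by omega)
      _ = 1 / 2 ^ (4 * s.length) := by rw [div_pow, one_pow]
      _ ≤ rnx s / 2 ^ (4 * s.length) := by gcongr

theorem kap_large (hPHB : T_PHB) (s : List Bool)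
    (P : Fin (2 ^ (2 * s.length)) → VV (qs s) → Bool)
    (hg : avg (qs s) P ≤ 1 / 2 ^ (4 * s.length)) :
    1 - kap (qs s) (rnx s) P ≤ dvx s := by
  have ha1 := avg_le_one hPHB (qs s) P
  have h1 := one_add_mul_le_pow (show (-2 : ℝ) ≤ -avg (qs s) P by linarith) (rnx s)
  unfold Pool.Agent.H78.XQ.kap dvx
  have h2 : (rnx s : ℝ) * avg (qs s) P ≤ rnx s * (1 / 2 ^ (4 * s.length)) :=
    mul_le_mul_of_nonneg_left hg (Nat.cast_nonneg _)
  rw [mul_one_div] at h2
  rw [sub_eq_add_neg 1 (avg (qs s) P)]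
  linarith

theorem kap_nonneg (hPHB : T_PHB) (s : List Bool)
    (P : Fin (2 ^ (2 * s.length)) → VV (qs s) → Bool) : 0 ≤ kap (qs s) (rnx s) P := by
  unfold Pool.Agent.H78.XQ.kap
  exact pow_nonneg (by linarith [avg_le_one hPHB (qs s) P]) _

theorem kap_le_one (hPHB : T_PHB) (s : List Bool)
    (P : Fin (2 ^ (2 * s.length)) → VV (qs s) → Bool) : kap (qs s) (rnx s) P ≤ 1 := by
  unfold Pool.Agent.H78.XQ.kap
  exact pow_le_one₀ (by linarith [avg_le_one hPHB (qs s) P])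
    (by linarith [avg_nonneg (qs s) P])

/-- WTX -/
theorem wtx_ (hITG : Pool.Agent.H78.XQ.T_ITG) (hPHB : T_PHB) : T_WTX := by
  intro s b P hs hg
  obtain ⟨K, hK1, hK2⟩ := kap_itg hITG s P
  have hr := wlx_pos s
  obtain ⟨r', hr'⟩ : ∃ r', wlx s = r' + 1 := ⟨wlx s - 1, by omega⟩
  have hp : (0 : ℝ) < 2 ^ wlx s := by positivity
  have hKr : (K : ℝ) = kap (qs s) (rnx s) P * 2 ^ wlx s := by
    rw [hK2]; field_simp
  have hd := dvx_le s hs
  -- the exact value
  have key : ∃ W : ℕ, W ≤ 2 ^ wlx s ∧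
      (W : ℝ) = ((if b then 1 / 2 else 3 / 2) - kap (qs s) (rnx s) P) * 2 ^ wlx s ∧
      |(W : ℝ) - 2 ^ wlx s / 2| ≤ dvx s * 2 ^ wlx s := by
    cases b with
    | true =>
      obtain ⟨h1, h2⟩ := kap_small hPHB s P (hg.2 rfl)
      have h3 : K ≤ 2 ^ r' := by
        have h4 : (K : ℝ) ≤ 2 ^ r' := by
          have h6 : kap (qs s) (rnx s) P * 2 ^ wlx s ≤ (1 / 2 : ℝ) * 2 ^ wlx s :=
            mul_le_mul_of_nonneg_right h1 hp.le
          have h7 : (1 / 2 : ℝ) * 2 ^ wlx s = 2 ^ r' := by rw [hr', pow_succ]; ring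
          rw [hKr]
          linarith
        exact_mod_cast h4
      refine ⟨2 ^ r' - K, ?_, ?_, ?_⟩
      · rw [hr', pow_succ]; omega
      · rw [Nat.cast_sub h3, if_pos rfl, sub_mul, ← hKr, hr', pow_succ]
        push_cast
        ring
      · rw [Nat.cast_sub h3, hKr]
        have e1 : ((2 ^ r' : ℕ) : ℝ) - kap (qs s) (rnx s) P * 2 ^ wlx s - 2 ^ wlx s / 2 =
            -(kap (qs s) (rnx s) P * 2 ^ wlx s) := by
          rw [hr', pow_succ]; push_cast; ring
        rw [e1, abs_neg, abs_of_nonneg (mul_nonneg (kap_nonneg hPHB s P) hp.le)]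
        exact mul_le_mul_of_nonneg_right h2 hp.le
    | false =>
      have h2 := kap_large hPHB s P (hg.1 rfl)
      have h3 : 2 ^ r' ≤ K := by
        have h4 : (2 : ℝ) ^ r' ≤ K := by
          have h5 : (1 / 2 : ℝ) ≤ kap (qs s) (rnx s) P := by linarith
          rw [hKr]
          have h6 : (1 / 2 : ℝ) * 2 ^ wlx s ≤ kap (qs s) (rnx s) P * 2 ^ wlx s :=
            mul_le_mul_of_nonneg_right h5 hp.le
          have h7 : (1 / 2 : ℝ) * 2 ^ wlx s = 2 ^ r' := by rw [hr', pow_succ]; ring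
          linarith
        exact_mod_cast h4
      have h4 : K ≤ 3 * 2 ^ r' := by
        rw [hr', pow_succ] at hK1
        omega
      refine ⟨3 * 2 ^ r' - K, ?_, ?_, ?_⟩
      · rw [hr', pow_succ]; omega
      · rw [Nat.cast_sub h4, if_neg (by simp), sub_mul, ← hKr, hr', pow_succ]
        push_cast
        ring
      · rw [Nat.cast_sub h4, hKr]
        have e1 : ((3 * 2 ^ r' : ℕ) : ℝ) - kap (qs s) (rnx s) P * 2 ^ wlx s - 2 ^ wlx s / 2 =
            (1 - kap (qs s) (rnx s) P) * 2 ^ wlx s := by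
          rw [hr', pow_succ]; push_cast; ring
        rw [e1, abs_of_nonneg (mul_nonneg (by linarith [kap_le_one hPHB s P]) hp.le)]
        exact mul_le_mul_of_nonneg_right h2 hp.le
  obtain ⟨W, hW1, hW2, hW3⟩ := key
  have hw : wtx s b P = W := by
    unfold wtx
    rw [← hW2, Nat.floor_natCast]
  rw [hw]
  refine ⟨hW1, hW3, fun y hy => ?_⟩
  unfold FitX Fit
  rw [hy, hW2]
  field_simp

end Pool.Agent.H50.OX
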